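import Mathlib
import Pool.Agent.Y1.SC.Defs

/-!
# The conjecture of Hodge type for the products of unrelated varieties with abelian varieties:
definitions
-/

set_option autoImplicit false

open CategoryTheory AlgebraicGeometry

universe u v

namespace Pool.Agent.H24CT

open Polynomial Pool.Agent.H914 Pool.Agent.H914.VarClass Pool.Agent.H914.VarClass.Obj
  Pool.Agent.H914.WeilCohomology Pool.Agent.H281R3.HT Pool.Agent.W552 Pool.Agent.W484.HS
  Pool.Agent.TH132.A Pool.Agent.Y1.CT Pool.Agent.Y1.SC

/-- The degree of the top self-intersection of the divisor `D` on `X` is positive (as for an ample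
divisor). -/
def PosDeg {k : Type} [Field k] {𝒱 : VarClass k} (ops : CycleOps 𝒱) {X : 𝒱.Obj}
    (D : X.Cycles) : Prop := 0 < X.V.degCycle (divPow ops D X.dim X.V.fundCycle)

/-- `HodgeTimes K q F`: the following holds for every algebraically closed field `k`, every class `𝒱`
of smooth projective varieties over `k` closed under products, every Weil cohomology `W` with
algebraically closed coefficient field, every polarized `A` with an endomorphism `f` which is the
Frobenius endomorphism, relative to the field with `q ^ s` elements, of an abelian variety of type `F`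
(`IsAbelianFrobenius`), and every `Z` with a Frobenius endomorphism `g` relative to the same field
whose eigenvalues are unrelated to the fields `K i`:

* each divisor `C` on `A × Z` is homologically equivalent to a sum `D × Z + A × B` of divisors from
  the factors;
* if `C` satisfies hard Lefschetz for `A × Z` then `D` satisfies hard Lefschetz for `A` and `B`
  satisfies hard Lefschetz for `Z`; and if moreover the degrees of `D` and `B` are positive, then
  **the standard conjecture of Hodge type for `A × Z` and `C` holds if and only if the standard
  conjecture of Hodge type holds for `A` and `D` and for `Z` and `B`** (the class of the fundamental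
  cycle of `A × Z` is assumed to be nonzero). -/
def HodgeTimes {I : Type} (K : I → Type) [∀ i, Field (K i)] (q : ℕ) (F : I → ℤ[X]) : Prop :=
  ∀ (k : Type) [Field k] [IsAlgClosed k] (𝒱 : VarClass k) (ops : CycleOps 𝒱)
    (W : WeilCohomology.{0, 0} ops) [IsAlgClosed W.K] (s : ℕ), 0 < s →
    ∀ (A : Polarized 𝒱) (Z : 𝒱.Obj) (f : A.X ⟶ A.X) (g : Z ⟶ Z),
      IsAbelianFrobenius W q s F A f → UnrelatedEigen K (W.map g) →
      FrobeniusOnCycles W (A.X.prod Z) (pairMap f g) (q ^ s) →
      (∀ C, (A.X.prod Z).IsCyc 1 C → ∃ D B, IsSumOf W C D B) ∧
      (¬ HomEq W (A.X.prod Z).V.fundCycle 0 → ∀ C D B, (A.X.prod Z).IsCyc 1 C →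
        IsSumOf W C D B → HardLefschetz W (A.X.prod Z) C → HardLefschetz W A.X D ∧
          HardLefschetz W Z B ∧ (PosDeg ops D → PosDeg ops B →
            (HodgeType W (A.X.prod Z) C ↔ HodgeType W A.X D ∧ HodgeType W Z B)))

end Pool.Agent.H24CT
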