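import Mathlib
import Pool.Agent.H24CT.Defs
import Pool.Agent.Y1.SC.Main
import Pool.Agent.H24HS.Sup

/-!
# The conjecture of Hodge type for the products of unrelated varieties with abelian varieties
-/

set_option autoImplicit false
set_option linter.unusedSectionVars false
set_option linter.unusedVariables false

open CategoryTheory AlgebraicGeometry

universe u v

namespace Pool.Agent.H24CT

open Module Polynomial Pool.Agent.H914 Pool.Agent.H914.VarClass Pool.Agent.H914.VarClass.Obj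
  Pool.Agent.H914.WeilCohomology Pool.Agent.H281R3.HT Pool.Agent.W552 Pool.Agent.W484.HS
  Pool.Agent.TH132.A Pool.Agent.Y1.CT Pool.Agent.Y1.SC Pool.Agent.H24HS

section

variable {k : Type} [Field k] {𝒱 : VarClass k} {ops : CycleOps 𝒱}
  {W : WeilCohomology.{0, 0} ops} {X U : 𝒱.Obj}

/-- The conjecture depends only on the class of the divisor. -/
lemma hodge_congr {C C' : X.Cycles} (hC : X.IsCyc 1 C) (hC' : X.IsCyc 1 C')
    (h : W.cl X C = W.cl X C') : HodgeType W X C ↔ HodgeType W X C' := by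
  have key : ∀ {C C' : X.Cycles}, X.IsCyc 1 C → X.IsCyc 1 C' → W.cl X C = W.cl X C' →
      HodgeType W X C → HodgeType W X C' := by
    intro C C' hC hC' h
    exact hodge_of_iso (P := ⟨X, C⟩) (Q := ⟨X, C'⟩) hC hC' (𝟙 X) rfl
      (fun a => by rw [W.map_id]) (by rw [W.map_id]; exact h)
  exact ⟨key hC hC' h, key hC' hC h.symm⟩

/-- The equivalence for a product on which the cycles split. -/
theorem hodge_iff_of_tens (hnum : HomEqNum W X)
    (hS : ∀ z, AS W (X.prod U) z → z ∈ tens W X U) {D : X.Cycles} {B : U.Cycles}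
    (hD : X.IsCyc 1 D) (hB : U.IsCyc 1 B) (hDL : HardLefschetz W X D)
    (hBL : HardLefschetz W U B) (hDp : PosDeg ops D) (hBp : PosDeg ops B) :
    HodgeType W (X.prod U) (sumD ops D B) ↔ HodgeType W X D ∧ HodgeType W U B := by
  obtain ⟨f, F, hf⟩ := exists_lw hD hDL
  obtain ⟨g, G, hg⟩ := exists_lw hB hBL
  have hst : Stable W X f := stable_of_lefschetzA F.hD F.sl2
    (lefschetzA_of_D hD hDL hnum)
  constructor
  · intro h
    exact ⟨hodge_of_prod' G F hBp (hodge_swap (P := ⟨X, D⟩) (Q := ⟨U, B⟩) hD hB h),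
      hodge_of_prod' F G hDp h⟩
  · rintro ⟨h1, h2⟩
    exact hodge_prod_of hS F hf hDL hst h1 G hg h2

end

theorem hodgeTimes {I : Type} {K : I → Type} [∀ i, Field (K i)] {q : ℕ} (hq : 1 < q)
    {F : I → ℤ[X]} (hR : NoRel F q (Unrelated K)) : HodgeTimes K q F := by
  intro k _ _ 𝒱 ops W _ s hs A Z f g hA hZ hF
  have hnum : HomEqNum W A.X := homEqNum_abelian hq hR hs hA
  have hmix : ∀ z, AS W (A.X.prod Z) z → z ∈ mixSpan W A.X Z := by
    intro z hz
    refine AS.ind (p := fun z => z ∈ mixSpan W A.X Z) ?_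
      (fun x y hx hy => Submodule.add_mem _ hx hy) hz
    rintro c _ ⟨z, hz, rfl⟩
    exact alg_mem_mix hq hR hs hA hZ hF c z hz
  have hS : ∀ z, AS W (A.X.prod Z) z → z ∈ tens W A.X Z :=
    fun z hz => mem_tens hnum hz (hmix z hz)
  have hsplit : ClSplit W A.X Z := clSplit_of_tens hS
  refine ⟨fun C hC => ?_, fun h1 C D B hC hSum hHL => ?_⟩
  · obtain ⟨D, B, hD, hB, hDB⟩ := div_split hsplit hC
    exact ⟨D, B, hD, hB, by rw [HomEq, hDB, map_add, W.cl_pull, W.cl_pull]⟩
  · obtain ⟨hD, hB, hDB⟩ := hSum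
    have hDB' := hDB
    rw [HomEq, map_add, W.cl_pull, W.cl_pull] at hDB
    rw [HomEq, W.cl_fund, map_zero] at h1
    have hX1 : (1 : W.H A.X) ≠ 0 := by
      intro h0
      apply h1
      rw [← map_one (W.map (fst A.X Z)), h0, map_zero]
    have hU1 : (1 : W.H Z) ≠ 0 := by
      intro h0
      apply h1
      rw [← map_one (W.map (snd A.X Z)), h0, map_zero]
    have hHX := hl_left hD hB hDB hHL hU1
    have hHU := hl_right hB hD hDB hHL hX1
    refine ⟨hHX, hHU, fun hDp hBp => ?_⟩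
    rw [hodge_congr hC (SmVar.IsCyc.add (ops.pull_mem _ hD) (ops.pull_mem _ hB)) hDB']
    exact hodge_iff_of_tens hnum hS hD hB hHX hHU hDp hBp

end Pool.Agent.H24CT
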